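import Pool.Agent.X90.DJ.AI
import Pool.Agent.X90.DC.Gen
import Pool.Agent.X90.DD.Dist

/-!
# Algebraic independence over arbitrary constants for almost all tuples
-/

set_option autoImplicit false

namespace Pool.Agent.X90.DJ

open Finset
open Pool.Agent.Y760.ZG (mz)
open Pool.Agent.Y760.ZF (sti)
open Pool.Agent.X90.DB (Ad ix ex ex_nil ex_ne)
open Pool.Agent.X90.DC
open Pool.Agent.X90.DD (ex_Zt eq_plane)

/-- the pattern with the first letter `u` and the fixed letters `l` -/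
def pw {k : ℕ} (u : Lr k) (l : List ℕ) : List (Lr k) := u :: fp l

lemma ix_pw {k : ℕ} (s : Fin k → ℕ) (u : Lr k) (l : List ℕ) :
    ix s (pw u l) = (u.1 + ∑ j, u.2 j * s j) :: l := by
  have h1 : ix s (pw u l) = (u.1 + ∑ j, u.2 j * s j) :: ix s (fp l) := by
    rw [pw, ix_cons]
  rw [h1, ix_fp]

lemma ge_pw {k : ℕ} {u : Lr k} {l : List ℕ} (hu : u.2 ≠ 0) (hl : ∀ c ∈ l, 1 ≤ c) : Ge (pw u l) := by
  constructor
  · intro x hx
    rw [pw, List.head?_cons, Option.mem_some_iff] at hx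
    rw [← hx]
    exact Or.inl hu
  · intro x hx
    rw [pw, List.mem_cons, fp, List.mem_map] at hx
    rcases hx with rfl | ⟨b, hb, rfl⟩
    · exact Or.inl hu
    · exact Or.inr (hl b hb)

lemma fw_pw {k : ℕ} {u : Lr k} {l : List ℕ} (hu : u.2 ≠ 0) : fw (pw u l) = 0 := by
  rw [pw, fw, if_neg hu]

lemma pw_inj {k : ℕ} {u u' : Lr k} {l l' : List ℕ} (h : pw u l = pw u' l') : u = u' ∧ l = l' := by
  rw [pw, pw, List.cons.injEq] at h
  refine ⟨h.1, ?_⟩
  have h2 := congrArg (List.map Prod.fst) h.2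
  rw [fp, fp, List.map_map, List.map_map] at h2
  have h3 : ∀ l : List ℕ, List.map (Prod.fst ∘ fun b => ((b, 0) : Lr k)) l = l := by
    intro l
    conv_rhs => rw [← List.map_id l]
    rfl
  rwa [h3, h3] at h2

/-- the polynomial with the constants inserted -/
noncomputable def sub {t r : ℕ} (x : Fin t → ℂ) (P : MvPolynomial (Fin t ⊕ Fin r) ℤ) :
    MvPolynomial (Fin r) ℂ :=
  MvPolynomial.aeval (Sum.elim (fun i => MvPolynomial.C (x i)) MvPolynomial.X) P

lemma aeval_sub {t r : ℕ} (x : Fin t → ℂ) (P : MvPolynomial (Fin t ⊕ Fin r) ℤ) (z : Fin r → ℂ) :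
    MvPolynomial.aeval z (sub x P) = MvPolynomial.aeval (Sum.elim x z) P := by
  have h1 : ((MvPolynomial.aeval z : MvPolynomial (Fin r) ℂ →ₐ[ℂ] ℂ).toRingHom.comp
      (MvPolynomial.aeval (Sum.elim (fun i => MvPolynomial.C (x i)) MvPolynomial.X) :
        MvPolynomial (Fin t ⊕ Fin r) ℤ →ₐ[ℤ] MvPolynomial (Fin r) ℂ).toRingHom) =
      (MvPolynomial.aeval (Sum.elim x z) : MvPolynomial (Fin t ⊕ Fin r) ℤ →ₐ[ℤ] ℂ).toRingHom := by
    refine MvPolynomial.ringHom_ext ?_ ?_
    · intro c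
      simp
    · intro i
      rcases i with i | i <;> simp
  exact congrFun (congrArg DFunLike.coe h1) P

/-- **algebraic independence over arbitrary constants, for almost all tuples** -/
theorem main (t k r D : ℕ) (u : Fin r → Lr k) (l : Fin r → List ℕ) (hu : ∀ i, (u i).2 ≠ 0)
    (hl : ∀ i, ∀ c ∈ l i, 1 ≤ c) (hinj : ∀ i j, u i = u j → l i = l j → i = j) (κ : ℕ) :
    ∃ K : ℕ, ∀ (C : ℝ) (x : Fin t → ℂ), ∃ N0 : ℕ, ∀ N : ℕ, N0 ≤ N → ∀ B : Finset (Fin k → ℕ),
      (∀ s ∈ B, (∀ j, N ≤ s j ∧ s j ≤ κ * N) ∧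
        ∃ P : MvPolynomial (Fin t ⊕ Fin r) ℤ, P.totalDegree ≤ D ∧
          (∀ m, |((P.coeff m : ℤ) : ℝ)| ≤ C ^ N) ∧ sub x P ≠ 0 ∧
          MvPolynomial.aeval (Sum.elim x fun i => ((mz (ix s (pw (u i) (l i))) : ℝ) : ℂ)) P = 0) →
      B.card ≤ K * N ^ (k - 1) := by
  classical
  obtain ⟨K, hK⟩ := gen t k r D (fun i => pw (u i) (l i)) (fun i => ge_pw (hu i) (hl i)) 0
    (fun i => (fw_pw (hu i)).le) κ
  refine ⟨K + r * r * κ ^ (k - 1), fun C x => ?_⟩
  obtain ⟨N0, hN0⟩ := hK C x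
  obtain ⟨M, hM⟩ : ∃ M : ℕ, ∀ i, ∀ c ∈ l i, c ≤ M :=
    ⟨∑ i, (l i).sum, fun i c hc => (List.single_le_sum (fun _ _ => Nat.zero_le _) _ hc).trans
      (single_le_sum (f := fun i => (l i).sum) (fun _ _ => Nat.zero_le _) (mem_univ i))⟩
  refine ⟨N0 + M + 2, fun N hN B hB => ?_⟩
  set wp : Fin r → List (Lr k) := fun i => pw (u i) (l i) with hwp
  have hwinj : Function.Injective wp := fun i j h => hinj i j (pw_inj h).1 (pw_inj h).2
  set B2 : Finset (Fin k → ℕ) := B.filter fun s => ¬ Function.Injective fun i => ix s (wp i) with hB2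
  have hcard2 : B2.card ≤ r * r * κ ^ (k - 1) * N ^ (k - 1) := by
    have h1 : B2 ⊆ (univ : Finset (Fin r × Fin r)).biUnion fun q =>
        if q.1 = q.2 then ∅ else B.filter fun s => ix s (wp q.1) = ix s (wp q.2) := by
      intro s hs
      rw [hB2, mem_filter, Function.Injective] at hs
      obtain ⟨hsB, hs⟩ := hs
      push Not at hs
      obtain ⟨i, j, hij, hne⟩ := hs
      rw [mem_biUnion]
      refine ⟨(i, j), mem_univ _, ?_⟩
      rw [if_neg hne, mem_filter]
      exact ⟨hsB, hij⟩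
    refine (card_le_card h1).trans (card_biUnion_le.trans ?_)
    have h2 : ∀ q ∈ (univ : Finset (Fin r × Fin r)), (if q.1 = q.2 then
        (∅ : Finset (Fin k → ℕ)) else B.filter fun s => ix s (wp q.1) = ix s (wp q.2)).card ≤
        κ ^ (k - 1) * N ^ (k - 1) := by
      intro q _
      split_ifs with h
      · simp
      · refine (eq_plane (κ := κ) (N := N) (fun h0 => h (hwinj h0)) _ fun s hs => ?_).trans ?_
        · rw [mem_filter] at hs
          exact ⟨mem_bx.2 (hB s hs.1).1, hs.2⟩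
        · rw [← mul_pow]
          exact Nat.pow_le_pow_left (by omega) _
    refine (sum_le_sum h2).trans ?_
    rw [sum_const, card_univ, Fintype.card_prod, Fintype.card_fin, smul_eq_mul, mul_assoc,
      mul_assoc, mul_assoc]
  rw [← card_filter_add_card_filter_not (s := B) (fun s => Function.Injective fun i => ix s (wp i)),
    add_mul]
  refine Nat.add_le_add (hN0 N (by omega) _ fun s hs => ?_) hcard2
  rw [mem_filter] at hs
  obtain ⟨hsB, hsi⟩ := hs
  obtain ⟨hs1, P, hPD, hPC, hne, hP0⟩ := hB s hsB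
  refine ⟨hs1, P, hPD, hPC, hP0, fun hall => hne ?_⟩
  -- the values of the words at all lists of numbers
  set a : Fin r → ℕ := fun i => (u i).1 + ∑ j, (u i).2 j * s j with ha
  have haN : ∀ i, N ≤ a i := by
    intro i
    obtain ⟨j, hj⟩ : ∃ j, (u i).2 j ≠ 0 := by
      by_contra h
      push Not at h
      exact hu i (funext h)
    calc N ≤ s j := (hs1 j).1
      _ ≤ (u i).2 j * s j := Nat.le_mul_of_pos_left _ (Nat.pos_of_ne_zero hj)
      _ ≤ ∑ j, (u i).2 j * s j := single_le_sum (f := fun j => (u i).2 j * s j)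
        (fun _ _ => Nat.zero_le _) (mem_univ j)
      _ ≤ a i := Nat.le_add_left _ _
  refine alg_indep a l (fun i => by have := haN i; omega)
    (fun i j c hc => ⟨hl j c hc, by
      have h1 := haN i
      have h2 := hM j c hc
      omega⟩) (fun i j hij hlij => hsi ?_) _ _ le_rfl fun ts => ?_
  · show ix s (pw (u i) (l i)) = ix s (pw (u j) (l j))
    rw [ix_pw, ix_pw]
    exact congrArg₂ List.cons hij hlij
  · rw [aeval_sub]
    have h1 := hall ℂ x (Zt ts) (fun Q hQ => by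
      have h2 : (Sum.elim x fun p : {p : List ℕ // Ad p ∧ p.sum ≤ 0} => Zt ts p.1) =
          Sum.elim x fun p : {p : List ℕ // Ad p ∧ p.sum ≤ 0} => ((mz p.1 : ℝ) : ℂ) := by
        funext y
        rcases y with y | p
        · rfl
        · exfalso
          have h3 := Pool.Agent.X90.DD.two_le_sum p.2.1
          have h4 := p.2.2
          omega
      rw [h2]
      exact hQ) (fun u v _ _ => Zt_mul ts u v)
    have h2 : (fun i => ex (Zt ts) (ix s (pw (u i) (l i)))) = Fp a l ts := by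
      funext i
      rw [ex_Zt, ix_pw]
      rfl
    rw [h2] at h1
    exact h1

end Pool.Agent.X90.DJ
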