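import Pool.Agent.X90.DC.Ind

/-!
# Algebraic independence of words with a large first letter in the quasi-shuffle algebra
-/

set_option autoImplicit false

namespace Pool.Agent.X90.DJ

open Finset
open Pool.Agent.X90.DC

section

variable {ι : Type} [Fintype ι] [DecidableEq ι]

/-- the values of the words `a_j r_j` -/
noncomputable def Fp (a : ι → ℕ) (r : ι → List ℕ) (ts : List ℂ) : ι → ℂ :=
  fun j => Zt ts (a j :: r j)

/-- the values of the words as functions of one more variable -/
noncomputable def Lp (a : ι → ℕ) (r : ι → List ℕ) (ts : List ℂ) : ι → Polynomial ℂ :=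
  fun j => Polynomial.C (Zt ts (a j :: r j)) + Polynomial.X ^ a j * Polynomial.C (Zt ts (r j))

lemma eval_Lp (a : ι → ℕ) (r : ι → List ℕ) (ts : List ℂ) (y : ℂ) (j : ι) :
    Polynomial.eval y (Lp a r ts j) = Fp a r (y :: ts) j := by
  rw [Lp, Fp, Zt]
  simp only [Polynomial.eval_add, Polynomial.eval_C, Polynomial.eval_mul, Polynomial.eval_pow,
    Polynomial.eval_X]

lemma eval_aeval (a : ι → ℕ) (r : ι → List ℕ) (ts : List ℂ) (y : ℂ) (Q : MvPolynomial ι ℂ) :
    Polynomial.eval y (MvPolynomial.aeval (Lp a r ts) Q) =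
      MvPolynomial.aeval (Fp a r (y :: ts)) Q := by
  have h1 : ((Polynomial.evalRingHom y).comp
      (MvPolynomial.aeval (Lp a r ts) : MvPolynomial ι ℂ →ₐ[ℂ] Polynomial ℂ).toRingHom) =
      (MvPolynomial.aeval (Fp a r (y :: ts)) : MvPolynomial ι ℂ →ₐ[ℂ] ℂ).toRingHom := by
    refine MvPolynomial.ringHom_ext ?_ ?_
    · intro c
      simp
    · intro i
      simp [eval_Lp]
  exact congrFun (congrArg DFunLike.coe h1) Q

/-- the part of order zero -/
lemma part_zero (a : ι → ℕ) (r : ι → List ℕ) (ts : List ℂ) (e : ℕ) (Q : MvPolynomial ι ℂ)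
    (hQ : ∀ i ∈ Q.vars, e ≤ a i) : (Polynomial.X : Polynomial ℂ) ^ e ∣
      MvPolynomial.aeval (Lp a r ts) Q - Polynomial.C (MvPolynomial.aeval (Fp a r ts) Q) := by
  rw [← Ideal.mem_span_singleton, ← Ideal.Quotient.eq_zero_iff_mem, map_sub, sub_eq_zero]
  set I := Ideal.span {(Polynomial.X : Polynomial ℂ) ^ e} with hI
  have h1 := MvPolynomial.hom_congr_vars (p₁ := Q) (p₂ := Q)
    (f₁ := (Ideal.Quotient.mk I).comp
      (MvPolynomial.aeval (Lp a r ts) : MvPolynomial ι ℂ →ₐ[ℂ] Polynomial ℂ).toRingHom)
    (f₂ := (Ideal.Quotient.mk I).comp ((Polynomial.C : ℂ →+* Polynomial ℂ).comp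
      (MvPolynomial.aeval (Fp a r ts) : MvPolynomial ι ℂ →ₐ[ℂ] ℂ).toRingHom)) (by
      ext c
      simp) (fun i hi _ => by
      simp only [RingHom.comp_apply, AlgHom.toRingHom_eq_coe, RingHom.coe_coe,
        MvPolynomial.aeval_X]
      rw [Ideal.Quotient.mk_eq_mk_iff_sub_mem, hI, Ideal.mem_span_singleton, Lp, Fp,
        add_sub_cancel_left]
      exact Dvd.dvd.mul_right (pow_dvd_pow _ (hQ i hi)) _) rfl
  exact h1

/-- the first order part, all exponents at least `e` -/
lemma part_one_aux (a : ι → ℕ) (r : ι → List ℕ) (ts : List ℂ) (e : ℕ) (he : 1 ≤ e)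
    (ha : ∀ i, e ≤ a i) (Q : MvPolynomial ι ℂ) : (Polynomial.X : Polynomial ℂ) ^ (e + 1) ∣
      MvPolynomial.aeval (Lp a r ts) Q - Polynomial.C (MvPolynomial.aeval (Fp a r ts) Q) -
        Polynomial.X ^ e * Polynomial.C (∑ i with a i = e,
          MvPolynomial.aeval (Fp a r ts) (MvPolynomial.pderiv i Q) * Zt ts (r i)) := by
  induction Q using MvPolynomial.induction_on with
  | C c =>
    have h1 : (∑ i with a i = e, MvPolynomial.aeval (Fp a r ts)
        (MvPolynomial.pderiv i (MvPolynomial.C c)) * Zt ts (r i)) = 0 :=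
      sum_eq_zero fun i _ => by rw [MvPolynomial.pderiv_C, map_zero, zero_mul]
    rw [h1]
    simp
  | add P Q hP hQ =>
    have h1 : (∑ i with a i = e, MvPolynomial.aeval (Fp a r ts)
        (MvPolynomial.pderiv i (P + Q)) * Zt ts (r i)) =
        (∑ i with a i = e, MvPolynomial.aeval (Fp a r ts)
          (MvPolynomial.pderiv i P) * Zt ts (r i)) +
        ∑ i with a i = e, MvPolynomial.aeval (Fp a r ts)
          (MvPolynomial.pderiv i Q) * Zt ts (r i) := by
      rw [← sum_add_distrib]
      exact sum_congr rfl fun i _ => by rw [map_add, map_add, add_mul]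
    rw [h1, map_add, map_add, map_add, map_add]
    have h2 := dvd_add hP hQ
    convert h2 using 1
    ring
  | mul_X P j hP =>
    obtain ⟨U, hU⟩ := hP
    set S := ∑ i with a i = e, MvPolynomial.aeval (Fp a r ts)
          (MvPolynomial.pderiv i P) * Zt ts (r i) with hS
    have h1 : (∑ i with a i = e, MvPolynomial.aeval (Fp a r ts)
        (MvPolynomial.pderiv i (P * MvPolynomial.X j)) * Zt ts (r i)) =
        S * Fp a r ts j + if a j = e then MvPolynomial.aeval (Fp a r ts) P * Zt ts (r j) else 0 := by
      rw [hS, sum_mul]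
      have h2 : (if a j = e then MvPolynomial.aeval (Fp a r ts) P * Zt ts (r j) else 0) =
          ∑ i with a i = e, if i = j then MvPolynomial.aeval (Fp a r ts) P * Zt ts (r j) else 0 := by
        rw [sum_ite_eq']
        simp only [mem_filter, mem_univ, true_and]
      rw [h2, ← sum_add_distrib]
      refine sum_congr rfl fun i _ => ?_
      rw [Derivation.leibniz, MvPolynomial.pderiv_X, smul_eq_mul, smul_eq_mul, map_add, map_mul,
        map_mul, MvPolynomial.aeval_X]
      by_cases hij : i = j
      · subst hij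
        rw [if_pos rfl, Pi.single_eq_same, map_one]
        ring
      · rw [if_neg hij, Pi.single_eq_of_ne (Ne.symm hij), map_zero]
        ring
    rw [h1]
    have h3 : MvPolynomial.aeval (Lp a r ts) P = Polynomial.X ^ (e + 1) * U +
        Polynomial.C (MvPolynomial.aeval (Fp a r ts) P) + Polynomial.X ^ e * Polynomial.C S := by
      rw [← hU]
      ring
    rw [map_mul, map_mul, MvPolynomial.aeval_X, MvPolynomial.aeval_X, h3]
    have h4 : Lp a r ts j = Polynomial.C (Fp a r ts j) +
        Polynomial.X ^ a j * Polynomial.C (Zt ts (r j)) := rfl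
    rw [h4]
    obtain ⟨b, hb⟩ := Nat.exists_eq_add_of_le (ha j)
    obtain ⟨e', rfl⟩ : ∃ e', e = e' + 1 := ⟨e - 1, by omega⟩
    split_ifs with hj
    · have hb0 : b = 0 := by omega
      subst hb0
      rw [hb]
      simp only [map_add, map_mul]
      refine ⟨U * (Polynomial.C (Fp a r ts j) +
        Polynomial.X ^ (e' + 1 + 0) * Polynomial.C (Zt ts (r j))) +
        Polynomial.X ^ e' * Polynomial.C S * Polynomial.C (Zt ts (r j)), ?_⟩
      ring
    · obtain ⟨b', rfl⟩ : ∃ b', b = b' + 1 := ⟨b - 1, by omega⟩
      rw [hb]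
      simp only [map_add, map_mul, map_zero]
      refine ⟨U * (Polynomial.C (Fp a r ts j) +
        Polynomial.X ^ (e' + 1 + (b' + 1)) * Polynomial.C (Zt ts (r j))) +
        Polynomial.X ^ b' * Polynomial.C (MvPolynomial.aeval (Fp a r ts) P) *
          Polynomial.C (Zt ts (r j)) +
        Polynomial.X ^ (e' + b' + 1) * Polynomial.C S * Polynomial.C (Zt ts (r j)), ?_⟩
      ring

/-- the first order part -/
lemma part_one (a : ι → ℕ) (r : ι → List ℕ) (ts : List ℂ) (e : ℕ) (he : 1 ≤ e)
    (Q : MvPolynomial ι ℂ) (hQ : ∀ i ∈ Q.vars, e ≤ a i) :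
    (Polynomial.X : Polynomial ℂ) ^ (e + 1) ∣
      MvPolynomial.aeval (Lp a r ts) Q - Polynomial.C (MvPolynomial.aeval (Fp a r ts) Q) -
        Polynomial.X ^ e * Polynomial.C (∑ i with a i = e,
          MvPolynomial.aeval (Fp a r ts) (MvPolynomial.pderiv i Q) * Zt ts (r i)) := by
  -- change the exponents of the variables that do not occur
  set a' : ι → ℕ := fun i => if i ∈ Q.vars then a i else max e (a i) with ha'
  have h0 : ∀ i ∈ Q.vars, a' i = a i := fun i hi => by
    simp only [ha']
    rw [if_pos hi]
  have h1 := part_one_aux a' r ts e he (fun i => by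
    simp only [ha']
    split_ifs with h
    · exact hQ i h
    · exact le_max_left _ _) Q
  have h2 : MvPolynomial.aeval (Lp a' r ts) Q = MvPolynomial.aeval (Lp a r ts) Q := by
    have := MvPolynomial.hom_congr_vars (p₁ := Q) (p₂ := Q)
      (f₁ := (MvPolynomial.aeval (Lp a' r ts) : MvPolynomial ι ℂ →ₐ[ℂ] Polynomial ℂ).toRingHom)
      (f₂ := (MvPolynomial.aeval (Lp a r ts) : MvPolynomial ι ℂ →ₐ[ℂ] Polynomial ℂ).toRingHom) (by
        ext c
        simp) (fun i hi _ => by
        simp only [AlgHom.toRingHom_eq_coe, RingHom.coe_coe, MvPolynomial.aeval_X, Lp, h0 i hi]) rfl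
    exact this
  have h3 : ∀ P : MvPolynomial ι ℂ, P.vars ⊆ Q.vars → MvPolynomial.aeval (Fp a' r ts) P =
      MvPolynomial.aeval (Fp a r ts) P := by
    intro P hP
    have := MvPolynomial.hom_congr_vars (p₁ := P) (p₂ := P)
      (f₁ := (MvPolynomial.aeval (Fp a' r ts) : MvPolynomial ι ℂ →ₐ[ℂ] ℂ).toRingHom)
      (f₂ := (MvPolynomial.aeval (Fp a r ts) : MvPolynomial ι ℂ →ₐ[ℂ] ℂ).toRingHom) (by
        ext c
        simp) (fun i hi _ => by
        simp only [AlgHom.toRingHom_eq_coe, RingHom.coe_coe, MvPolynomial.aeval_X, Fp,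
          h0 i (hP hi)]) rfl
    exact this
  have h4 : ∀ i, (MvPolynomial.pderiv i Q).vars ⊆ Q.vars := by
    intro i j hj
    rw [MvPolynomial.mem_vars_iff_mem_support] at hj ⊢
    obtain ⟨m, hm, hj⟩ := hj
    rw [MvPolynomial.mem_support_iff, MvPolynomial.coeff_pderiv] at hm
    refine ⟨m + Finsupp.single i 1, ?_, ?_⟩
    · rw [MvPolynomial.mem_support_iff]
      intro h
      rw [h] at hm
      simp at hm
    · rw [Finsupp.mem_support_iff] at hj ⊢
      rw [Finsupp.add_apply]
      omega
  have h5 : (∑ i with a' i = e, MvPolynomial.aeval (Fp a' r ts)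
      (MvPolynomial.pderiv i Q) * Zt ts (r i)) = ∑ i with a i = e,
        MvPolynomial.aeval (Fp a r ts) (MvPolynomial.pderiv i Q) * Zt ts (r i) := by
    rw [sum_filter, sum_filter]
    refine sum_congr rfl fun i _ => ?_
    rw [h3 _ (h4 i)]
    by_cases hi : i ∈ Q.vars
    · rw [h0 i hi]
    · rw [MvPolynomial.pderiv_eq_zero_of_notMem_vars hi, map_zero, zero_mul, ite_self, ite_self]
  rw [h2, h3 Q le_rfl, h5] at h1
  exact h1

lemma vars_pderiv (i : ι) (Q : MvPolynomial ι ℂ) : (MvPolynomial.pderiv i Q).vars ⊆ Q.vars := by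
  intro j hj
  rw [MvPolynomial.mem_vars_iff_mem_support] at hj ⊢
  obtain ⟨m, hm, hj⟩ := hj
  rw [MvPolynomial.mem_support_iff, MvPolynomial.coeff_pderiv] at hm
  refine ⟨m + Finsupp.single i 1, ?_, ?_⟩
  · rw [MvPolynomial.mem_support_iff]
    intro h
    rw [h] at hm
    simp at hm
  · rw [Finsupp.mem_support_iff] at hj ⊢
    rw [Finsupp.add_apply]
    omega

/-- the linear factor -/
noncomputable def Lr1 (ts : List ℂ) : List ℕ → Polynomial ℂ
  | [] => 1
  | c :: l => Polynomial.C (Zt ts (c :: l)) + Polynomial.X ^ c * Polynomial.C (Zt ts l)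

lemma eval_Lr1 (ts : List ℂ) (y : ℂ) (l : List ℕ) : Polynomial.eval y (Lr1 ts l) = Zt (y :: ts) l := by
  cases l with
  | nil => rw [Lr1, Zt_nil, Polynomial.eval_one]
  | cons c l =>
    rw [Lr1, Zt]
    simp only [Polynomial.eval_add, Polynomial.eval_C, Polynomial.eval_mul, Polynomial.eval_pow,
      Polynomial.eval_X]

/-- **separation of the words with small letters** -/
lemma separate (a : ι → ℕ) (r : ι → List ℕ) (e : ℕ) (n : ℕ) : ∀ (S : Finset ι) (rr : ι → List ℕ)
    (Q : ι → MvPolynomial ι ℂ), (∀ j ∈ S, (rr j).length ≤ n) →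
    (∀ j ∈ S, ∀ c ∈ rr j, 1 ≤ c ∧ c < e) → (∀ i ∈ S, ∀ j ∈ S, rr i = rr j → i = j) →
    (∀ j ∈ S, ∀ i ∈ (Q j).vars, e ≤ a i) →
    (∀ ts, ∑ j ∈ S, MvPolynomial.aeval (Fp a r ts) (Q j) * Zt ts (rr j) = 0) →
    ∀ j ∈ S, ∀ ts, MvPolynomial.aeval (Fp a r ts) (Q j) = 0 := by
  induction n with
  | zero =>
    intro S rr Q hlen _ hinj _ h j hj ts
    have h0 : ∀ i ∈ S, rr i = [] := fun i hi => List.eq_nil_of_length_eq_zero (by
      have := hlen i hi
      omega)
    have hS : S = {j} := by
      ext i
      rw [mem_singleton]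
      constructor
      · intro hi
        exact hinj i hi j hj (by rw [h0 i hi, h0 j hj])
      · rintro rfl
        exact hj
    have h1 := h ts
    rw [hS, sum_singleton, h0 j hj, Zt_nil, mul_one] at h1
    exact h1
  | succ n ih =>
    intro S rr Q hlen hlet hinj hvars h
    -- the words with first letter `c`
    have key : ∀ c, 1 ≤ c → c < e → ∀ j ∈ S, (rr j).head? = some c →
        ∀ ts, MvPolynomial.aeval (Fp a r ts) (Q j) = 0 := by
      intro c hc1 hce j hj hjc
      have hcons : ∀ i, (rr i).head? = some c → rr i = c :: (rr i).tail := by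
        intro i hi
        cases hri : rr i with
        | nil => rw [hri] at hi; simp at hi
        | cons b l =>
          rw [hri, List.head?_cons, Option.some.injEq] at hi
          rw [hi, List.tail_cons]
      refine ih (S.filter fun i => (rr i).head? = some c) (fun i => (rr i).tail) Q ?_ ?_ ?_ ?_ ?_
        j (mem_filter.2 ⟨hj, hjc⟩)
      · intro i hi
        rw [mem_filter] at hi
        have := hlen i hi.1
        rw [List.length_tail]
        omega
      · intro i hi b hb
        rw [mem_filter] at hi
        exact hlet i hi.1 b (List.mem_of_mem_tail hb)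
      · intro i hi i' hi' hii
        rw [mem_filter] at hi hi'
        refine hinj i hi.1 i' hi'.1 ?_
        rw [hcons i hi.2, hcons i' hi'.2, hii]
      · intro i hi
        rw [mem_filter] at hi
        exact hvars i hi.1
      · intro ts
        have hp : ∑ i ∈ S, MvPolynomial.aeval (Lp a r ts) (Q i) * Lr1 ts (rr i) = 0 := by
          refine Polynomial.funext fun y => ?_
          rw [Polynomial.eval_finsetSum, Polynomial.eval_zero, ← h (y :: ts)]
          exact sum_congr rfl fun i _ => by rw [Polynomial.eval_mul, eval_aeval, eval_Lr1]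
        have hco : ∀ i ∈ S, (MvPolynomial.aeval (Lp a r ts) (Q i) * Lr1 ts (rr i)).coeff c =
            if (rr i).head? = some c then
              MvPolynomial.aeval (Fp a r ts) (Q i) * Zt ts (rr i).tail else 0 := by
          intro i hi
          obtain ⟨U, hU⟩ := part_zero a r ts e (Q i) (hvars i hi)
          have h1 : MvPolynomial.aeval (Lp a r ts) (Q i) = Polynomial.X ^ e * U +
              Polynomial.C (MvPolynomial.aeval (Fp a r ts) (Q i)) := by
            rw [← hU]
            ring
          rw [h1, add_mul, mul_assoc, Polynomial.coeff_add, Polynomial.coeff_C_mul]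
          have h2 : ((Polynomial.X : Polynomial ℂ) ^ e * (U * Lr1 ts (rr i))).coeff c = 0 := by
            rw [Polynomial.coeff_X_pow_mul', if_neg (by omega)]
          rw [h2, zero_add]
          cases hri : rr i with
          | nil =>
            rw [Lr1, Polynomial.coeff_one, if_neg (by omega), mul_zero, if_neg (by simp)]
          | cons b l =>
            rw [Lr1, Polynomial.coeff_add, Polynomial.coeff_C, if_neg (by omega), zero_add,
              Polynomial.coeff_mul_C, Polynomial.coeff_X_pow]
            by_cases hb : c = b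
            · subst hb
              rw [if_pos rfl, List.head?_cons, if_pos rfl, one_mul, List.tail_cons]
            · rw [if_neg hb, List.head?_cons, if_neg (fun h => hb (Option.some.inj h).symm),
                zero_mul, mul_zero]
        have h3 := congrArg (fun p : Polynomial ℂ => p.coeff c) hp
        simp only [Polynomial.finsetSum_coeff, Polynomial.coeff_zero] at h3
        rw [sum_congr rfl hco, ← sum_filter] at h3
        exact h3
    intro j hj ts
    cases hrj : rr j with
    | cons c l =>
      have hc := hlet j hj c (by rw [hrj]; exact List.mem_cons_self)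
      exact key c hc.1 hc.2 j hj (by rw [hrj]; rfl) ts
    | nil =>
      have h1 := h ts
      rw [sum_eq_single j] at h1
      · rw [hrj, Zt_nil, mul_one] at h1
        exact h1
      · intro i hi hne
        cases hri : rr i with
        | nil => exact absurd (hinj i hi j hj (by rw [hri, hrj])) hne
        | cons c l =>
          have hc := hlet i hi c (by rw [hri]; exact List.mem_cons_self)
          rw [key c hc.1 hc.2 i hi (by rw [hri]; rfl) ts, zero_mul]
      · intro hj'
        exact absurd hj hj'

/-- **algebraic independence** -/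
theorem alg_indep (a : ι → ℕ) (r : ι → List ℕ) (ha : ∀ i, 1 ≤ a i)
    (hlet : ∀ i j, ∀ c ∈ r j, 1 ≤ c ∧ c < a i)
    (hinj : ∀ i j, a i = a j → r i = r j → i = j) (n : ℕ) :
    ∀ P : MvPolynomial ι ℂ, P.totalDegree ≤ n →
      (∀ ts, MvPolynomial.aeval (Fp a r ts) P = 0) → P = 0 := by
  induction n with
  | zero =>
    intro P hP h
    rw [Nat.le_zero, MvPolynomial.totalDegree_eq_zero_iff_eq_C] at hP
    have h1 := h []
    rw [hP, MvPolynomial.aeval_C] at h1
    rw [hP]
    have h2 : MvPolynomial.coeff 0 P = 0 := h1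
    rw [h2, map_zero]
  | succ n ih =>
    intro P hP h
    by_contra hne
    by_cases hv : P.vars = ∅
    · -- a constant
      have h0 : P.totalDegree = 0 := by
        rw [MvPolynomial.totalDegree_eq_zero_iff]
        intro m hm i
        by_contra hi
        have : i ∈ P.vars := (MvPolynomial.mem_vars_iff_mem_support i).2
          ⟨m, hm, Finsupp.mem_support_iff.2 hi⟩
        rw [hv] at this
        exact absurd this (notMem_empty i)
      exact hne (ih P (by omega) h)
    · obtain ⟨i0, hi0, hmin⟩ := exists_min_image P.vars a (nonempty_iff_ne_empty.2 hv)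
      set e := a i0 with he
      have hvars : ∀ i ∈ P.vars, e ≤ a i := fun i hi => hmin i hi
      have he1 : 1 ≤ e := ha i0
      -- the coefficient of `X ^ e`
      have hA : ∀ ts, ∑ i with a i = e,
          MvPolynomial.aeval (Fp a r ts) (MvPolynomial.pderiv i P) * Zt ts (r i) = 0 := by
        intro ts
        have h1 := part_one a r ts e he1 P hvars
        have h2 : MvPolynomial.aeval (Lp a r ts) P = 0 := by
          refine Polynomial.funext fun y => ?_
          rw [eval_aeval, h, Polynomial.eval_zero]
        rw [h2, h ts, map_zero, sub_zero, zero_sub, dvd_neg, Polynomial.X_pow_dvd_iff] at h1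
        have h3 := h1 e (Nat.lt_succ_self e)
        rw [Polynomial.coeff_X_pow_mul', if_pos le_rfl, Nat.sub_self, Polynomial.coeff_C_zero] at h3
        exact h3
      obtain ⟨L, hL⟩ : ∃ L : ℕ, ∀ i : ι, (r i).length ≤ L :=
        ⟨∑ i, (r i).length, fun i => single_le_sum (f := fun i => (r i).length)
          (fun _ _ => Nat.zero_le _) (mem_univ i)⟩
      have hB := separate a r e L (univ.filter fun i => a i = e) r
        (fun i => MvPolynomial.pderiv i P) (fun j _ => hL j)
        (fun j _ c hc => hlet i0 j c hc) (fun i hi j hj hij => hinj i j (by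
          rw [mem_filter] at hi hj
          rw [hi.2, hj.2]) hij) (fun j _ i hi => hvars i (vars_pderiv j P hi)) hA i0
        (mem_filter.2 ⟨mem_univ _, rfl⟩)
      have hdeg : (MvPolynomial.pderiv i0 P).totalDegree ≤ n := by
        rw [MvPolynomial.totalDegree]
        refine Finset.sup_le fun m hm => ?_
        rw [MvPolynomial.mem_support_iff, MvPolynomial.coeff_pderiv] at hm
        have h1 : m + Finsupp.single i0 1 ∈ P.support := by
          rw [MvPolynomial.mem_support_iff]
          exact left_ne_zero_of_mul hm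
        have h2 := (MvPolynomial.le_totalDegree h1).trans hP
        rw [Finsupp.sum_add_index' (fun _ => rfl) (fun _ _ _ => rfl),
          Finsupp.sum_single_index rfl] at h2
        omega
      have h0 := ih _ hdeg hB
      -- the variable does not occur
      rw [MvPolynomial.mem_vars_iff_mem_support] at hi0
      obtain ⟨m, hm, hmi⟩ := hi0
      rw [Finsupp.mem_support_iff] at hmi
      have h1 := congrArg (MvPolynomial.coeff (m - Finsupp.single i0 1)) h0
      rw [MvPolynomial.coeff_pderiv, MvPolynomial.coeff_zero] at h1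
      have h2 : m - Finsupp.single i0 1 + Finsupp.single i0 1 = m := by
        ext i
        rw [Finsupp.add_apply, Finsupp.tsub_apply]
        by_cases hi : i = i0
        · subst hi
          rw [Finsupp.single_eq_same]
          omega
        · rw [Finsupp.single_eq_of_ne hi]
          omega
      rw [h2, mul_eq_zero] at h1
      rcases h1 with h1 | h1
      · exact (MvPolynomial.mem_support_iff.1 hm) h1
      · exact absurd h1 (Nat.cast_add_one_ne_zero _)

end

end Pool.Agent.X90.DJ
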